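import Mathlib

/-!
# Model companions, and interpretations over equality
-/

universe u v w

namespace Pool.Agent.X225.Mc

open FirstOrder FirstOrder.Language Filter

section Companion

variable {L : FirstOrder.Language.{0, 0}}

/-- The theory `T` is model complete: every embedding between models of `T` is elementary. -/
def ModelComplete (T : L.Theory) : Prop :=
  ∀ (M N : Type w) [L.Structure M] [L.Structure N], M ⊨ T → N ⊨ T → ∀ (f : M ↪[L] N) (n : ℕ)
    (φ : L.Formula (Fin n)) (x : Fin n → M), φ.Realize (f ∘ x) ↔ φ.Realize x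

/-- The theory `T'` is a model companion of the theory `T`: `T'` is model complete, every model of `T`
embeds into a model of `T'` and vice versa. -/
def IsModelCompanion (T T' : L.Theory) : Prop :=
  ModelComplete.{w} T' ∧
    (∀ (M : Type w) [L.Structure M], M ⊨ T →
      ∃ (N : Type w) (_ : L.Structure N), N ⊨ T' ∧ Nonempty (M ↪[L] N)) ∧
    ∀ (M : Type w) [L.Structure M], M ⊨ T' →
      ∃ (N : Type w) (_ : L.Structure N), N ⊨ T ∧ Nonempty (M ↪[L] N)

/-- the sentence `∀ x (φ ↔ ψ)` -/
noncomputable def chi {n : ℕ} (φ ψ : L.Formula (Fin n)) : L.Sentence :=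
  Formula.iAlls (Fin n) ((φ.iff ψ).relabel (Sum.inr : Fin n → Empty ⊕ Fin n))

theorem realize_chi {n : ℕ} (φ ψ : L.Formula (Fin n)) (M : Type w) [L.Structure M] :
    M ⊨ chi φ ψ ↔ ∀ x : Fin n → M, φ.Realize x ↔ ψ.Realize x := by
  unfold chi Sentence.Realize
  rw [Formula.realize_iAlls]
  constructor
  · intro h x
    have h1 := h x
    rw [Formula.realize_relabel] at h1
    exact Formula.realize_iff.1 h1
  · intro h x
    rw [Formula.realize_relabel]
    exact Formula.realize_iff.2 (h _)

theorem modelComplete_of (B : Type) [L.Structure B]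
    (h : ∀ (n : ℕ) (φ : L.Formula (Fin n)), ∃ ψ : L.Formula (Fin n),
      (∀ x : Fin n → B, φ.Realize x ↔ ψ.Realize x) ∧
      ∀ (M N : Type w) [L.Structure M] [L.Structure N] (f : M ↪[L] N) (x : Fin n → M),
        ψ.Realize (f ∘ x) ↔ ψ.Realize x) :
    ModelComplete.{w} (L.completeTheory B) := by
  intro M N _ _ hM hN f n φ x
  obtain ⟨ψ, h1, h2⟩ := h n φ
  have h3 : chi φ ψ ∈ L.completeTheory B := (realize_chi φ ψ B).2 h1
  have h4 := (realize_chi φ ψ M).1 (Theory.realize_sentence_of_mem _ h3)
  have h5 := (realize_chi φ ψ N).1 (Theory.realize_sentence_of_mem _ h3)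
  rw [h4, h5, h2]

/-! ### Embeddings of models -/

/-- facts -/
abbrev Lit (L : FirstOrder.Language.{0, 0}) (M : Type w) : Type w :=
  (Σ n : ℕ, L.Relations n × (Fin n → M)) ⊕ (M × M)

open Classical in
/-- the formula of a fact -/
noncomputable def Lit.form {M : Type w} [L.Structure M] : Lit L M → L.Formula M
  | .inl ⟨_, R, x⟩ => if Structure.RelMap R x then R.formula fun i => Term.var (x i)
      else (R.formula fun i => Term.var (x i)).not
  | .inr (m, m') => if m = m' then ⊤ else (Term.equal (Term.var m) (Term.var m')).not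

theorem Lit.form_inl {M : Type w} [L.Structure M] {n : ℕ} (R : L.Relations n) (x : Fin n → M)
    [Decidable (Structure.RelMap R x)] :
    (Lit.form (.inl ⟨n, R, x⟩) : L.Formula M) =
      if Structure.RelMap R x then R.formula fun i => Term.var (x i)
      else (R.formula fun i => Term.var (x i)).not := by
  unfold Lit.form
  simp only
  congr

theorem Lit.form_inr {M : Type w} [L.Structure M] (m m' : M) [Decidable (m = m')] :
    (Lit.form (.inr (m, m')) : L.Formula M) =
      if m = m' then ⊤ else (Term.equal (Term.var m) (Term.var m')).not := by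
  unfold Lit.form
  simp only
  congr

theorem Lit.realize_id {M : Type w} [L.Structure M] (l : Lit L M) : l.form.Realize (id : M → M) := by
  classical
  rcases l with ⟨n, R, x⟩ | ⟨m, m'⟩
  · rw [Lit.form_inl]
    by_cases h : Structure.RelMap R x
    · rw [if_pos h, Formula.realize_rel]
      exact h
    · rw [if_neg h, Formula.realize_not, Formula.realize_rel]
      exact h
  · rw [Lit.form_inr]
    by_cases h : m = m'
    · rw [if_pos h]
      exact Formula.realize_top.2 trivial
    · rw [if_neg h, Formula.realize_not, Formula.realize_equal]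
      exact h

/-- a map that respects a fact -/
def Lit.Good {M : Type w} [L.Structure M] {Q : Type} [L.Structure Q] (g : M → Q) : Lit L M → Prop
  | .inl ⟨_, R, x⟩ => Structure.RelMap R (g ∘ x) ↔ Structure.RelMap R x
  | .inr (m, m') => g m = g m' → m = m'

theorem exists_good {P Q : Type} [L.Structure P] [L.Structure Q] [Nonempty P] (e : P ↪[L] Q)
    (M : Type w) [L.Structure M] (hM : M ⊨ L.completeTheory P) (j : Finset (Lit L M)) :
    ∃ g : M → Q, ∀ l ∈ j, l.Good g := by
  classical
  let φ : L.Formula M := Formula.iInf fun l : j => l.1.form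
  have h1 : φ.Realize (id : M → M) := by
    rw [Formula.realize_iInf]
    exact fun l => l.1.realize_id
  have h2 : M ⊨ φ.exClosure := by
    rw [Formula.realize_exClosure]
    refine ⟨fun m => m.1, ?_⟩
    exact (BoundedFormula.realize_restrictFreeVar (φ := φ) (f := id)
      (v := fun m : φ.freeVarFinset => m.1) (xs := default) (id : M → M) (fun a => rfl)).2 h1
  have h3 : P ⊨ φ.exClosure := by
    by_contra h3
    have h4 : φ.exClosure.not ∈ L.completeTheory P := by
      rw [mem_completeTheory]
      exact (Formula.realize_not).2 h3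
    have h5 := Theory.realize_sentence_of_mem (M := M) _ h4
    exact (Formula.realize_not.1 h5) h2
  rw [Formula.realize_exClosure] at h3
  obtain ⟨v, hv⟩ := h3
  let v' : M → P := fun m => if h : m ∈ φ.freeVarFinset then v ⟨m, h⟩ else Classical.arbitrary P
  have h4 : φ.Realize v' := by
    exact (BoundedFormula.realize_restrictFreeVar (φ := φ) (f := id) (v := v) (xs := default) v'
      (fun a => by
        change v a = if h : a.1 ∈ φ.freeVarFinset then v ⟨a.1, h⟩ else Classical.arbitrary P
        rw [dif_pos a.2])).1 hv
  rw [Formula.realize_iInf] at h4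
  refine ⟨fun m => e (v' m), fun l hl => ?_⟩
  have h5 := h4 ⟨l, hl⟩
  rcases l with ⟨n, R, x⟩ | ⟨m, m'⟩
  · change Structure.RelMap R (fun i => e (v' (x i))) ↔ Structure.RelMap R x
    have h6 : Structure.RelMap R (fun i => e (v' (x i))) ↔ Structure.RelMap R fun i => v' (x i) :=
      e.map_rel R fun i => v' (x i)
    rw [h6]
    change (Lit.form (.inl ⟨n, R, x⟩) : L.Formula M).Realize v' at h5
    rw [Lit.form_inl] at h5
    by_cases h : Structure.RelMap R x
    · rw [if_pos h, Formula.realize_rel] at h5
      exact ⟨fun _ => h, fun _ => h5⟩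
    · rw [if_neg h, Formula.realize_not, Formula.realize_rel] at h5
      exact ⟨fun h' => absurd h' h5, fun h' => absurd h' h⟩
  · change e (v' m) = e (v' m') → m = m'
    intro h
    by_contra hne
    change (Lit.form (.inr (m, m')) : L.Formula M).Realize v' at h5
    rw [Lit.form_inr] at h5
    rw [if_neg hne, Formula.realize_not, Formula.realize_equal] at h5
    exact h5 (e.injective h)

/-- **Models of the theory of a structure that embeds in `Q` embed in models of the theory of `Q`.** -/
theorem exists_embedding [L.IsRelational] {P Q : Type} [L.Structure P] [L.Structure Q] [Nonempty P]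
    [Nonempty Q] (e : P ↪[L] Q) (M : Type w) [L.Structure M] (hM : M ⊨ L.completeTheory P) :
    ∃ (N : Type w) (_ : L.Structure N), N ⊨ L.completeTheory Q ∧ Nonempty (M ↪[L] N) := by
  classical
  choose g hg using fun j : Finset (Lit L M) => exists_good e M hM j
  let U : Ultrafilter (Finset (Lit L M)) := Ultrafilter.of atTop
  have hU : (U : Filter (Finset (Lit L M))) ≤ atTop := Ultrafilter.of_le _
  have hev : ∀ l : Lit L M, ∀ᶠ j in U, l.Good (g j) := by
    intro l
    apply hU
    filter_upwards [eventually_ge_atTop ({l} : Finset (Lit L M))] with j hj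
    exact hg j l (hj (Finset.mem_singleton_self l))
  refine ⟨(U : Filter (Finset (Lit L M))).Product fun _ => Q, inferInstance, ?_, ⟨?_⟩⟩
  · rw [Theory.model_iff]
    intro φ hφ
    rw [Ultraproduct.sentence_realize]
    exact Eventually.of_forall fun _ => hφ
  · refine
      { toFun := fun m => ((fun j => g j m : Finset (Lit L M) → Q) :
          (U : Filter (Finset (Lit L M))).Product fun _ => Q)
        inj' := ?_
        map_fun' := fun {_} f _ => isEmptyElim f
        map_rel' := ?_ }
    · intro m m' h
      have h1 : ∀ᶠ j in U, g j m = g j m' := Quotient.exact h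
      obtain ⟨j, h2, h3⟩ := (h1.and (hev (.inr (m, m')))).exists
      exact h3 h2
    · intro n R x
      have h1 := Language.relMap_quotient_mk' (L := L)
        (s := (U : Filter (Finset (Lit L M))).productSetoid fun _ => Q)
        (ps := Language.Ultraproduct.setoidPrestructure (fun _ => Q) U) R
        (fun i j => g j (x i))
      refine h1.trans ?_
      change (∀ᶠ j in U, Structure.RelMap R fun i => g j (x i)) ↔ Structure.RelMap R x
      constructor
      · intro h
        obtain ⟨j, h2, h3⟩ := (h.and (hev (.inl ⟨n, R, x⟩))).exists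
        exact h3.1 h2
      · intro h
        filter_upwards [hev (.inl ⟨n, R, x⟩)] with j hj
        exact hj.2 h

end Companion

/-! ### Definable sets over equality -/

section Definable

/-- a set as a structure for the empty language -/
instance : FirstOrder.Language.empty.Structure ℕ := FirstOrder.Language.emptyStructure

variable {α : Type} [Finite α]

theorem definable_eq (A : Set ℕ) (i j : α) :
    A.Definable Language.empty {s : α → ℕ | s i = s j} :=
  ⟨Term.equal (Term.var i) (Term.var j), by
    ext s
    simp [Formula.realize_equal]⟩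

theorem definable_of_inv (A : Set ℕ) (X : Set (α → ℕ))
    (hX : ∀ (σ : Equiv.Perm ℕ) (s : α → ℕ), s ∈ X → (fun i => σ (s i)) ∈ X)
    (hperm : ∀ s s' : α → ℕ, (∀ i j, s i = s j ↔ s' i = s' j) →
      ∃ σ : Equiv.Perm ℕ, ∀ i, σ (s i) = s' i) :
    A.Definable Language.empty X := by
  classical
  have _ := Fintype.ofFinite α
  let Y : Set (α × α) → Set (α → ℕ) := fun e => {s | ∀ p : α × α, s p.1 = s p.2 ↔ p ∈ e}
  let T : Finset (Set (α × α)) := Finset.univ.filter fun e => ∃ s ∈ X, s ∈ Y e
  have hXT : X = ⋃ e ∈ T, Y e := by
    ext s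
    simp only [Set.mem_iUnion]
    constructor
    · intro hs
      refine ⟨{p | s p.1 = s p.2}, ?_, fun p => Iff.rfl⟩
      exact Finset.mem_filter.2 ⟨Finset.mem_univ _, s, hs, fun p => Iff.rfl⟩
    · rintro ⟨e, he, hs⟩
      obtain ⟨-, s', hs', hs'e⟩ := Finset.mem_filter.1 he
      obtain ⟨σ, hσ⟩ := hperm s' s fun i j => (hs'e (i, j)).trans (hs (i, j)).symm
      have h1 : (fun i => σ (s' i)) = s := funext hσ
      rw [← h1]
      exact hX σ s' hs'
  have hY : ∀ e, A.Definable Language.empty (Y e) := by
    intro e
    have h1 : Y e = ⋂ p ∈ (Finset.univ : Finset (α × α)),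
        (if p ∈ e then {s : α → ℕ | s p.1 = s p.2} else {s : α → ℕ | s p.1 = s p.2}ᶜ) := by
      ext s
      simp only [Set.mem_iInter, Finset.mem_univ, forall_true_left]
      change (∀ p : α × α, s p.1 = s p.2 ↔ p ∈ e) ↔ _
      refine forall_congr' fun p => ?_
      by_cases hp : p ∈ e
      · rw [if_pos hp]
        exact ⟨fun h => h.2 hp, fun h => ⟨fun _ => hp, fun _ => h⟩⟩
      · rw [if_neg hp]
        exact ⟨fun h h' => hp (h.1 h'), fun h => ⟨fun h' => absurd h' h, fun h' => absurd h' hp⟩⟩
    rw [h1]
    refine Set.definable_biInter_finset (fun p => ?_) _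
    by_cases hp : p ∈ e
    · rw [if_pos hp]
      exact definable_eq A _ _
    · rw [if_neg hp]
      exact (definable_eq A _ _).compl
  rw [hXT]
  exact Set.definable_biUnion_finset (fun e => hY e) T

omit [Finite α] in
theorem inv_of_definable {A : Set ℕ} {X : Set (α → ℕ)} (hX : A.Definable Language.empty X)
    (τ : Equiv.Perm ℕ) (hτ : ∀ a ∈ A, τ a = a) (s : α → ℕ) : (fun i => τ (s i)) ∈ X ↔ s ∈ X := by
  obtain ⟨φ, rfl⟩ := hX
  let g : ℕ ≃[Language.empty[[A]]] ℕ :=
    { toEquiv := τ
      map_fun' := by
        intro n f x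
        rcases f with f | f
        · exact isEmptyElim f
        · rcases n with _ | n
          · change τ (f : A).1 = (f : A).1
            exact hτ _ f.2
          · exact isEmptyElim f
      map_rel' := by
        intro n R x
        rcases R with R | R
        · exact isEmptyElim R
        · exact isEmptyElim R }
  exact StrongHomClass.realize_formula g φ

end Definable

/-- a function invariant under transpositions outside a finite set has finitely many values -/
theorem finite_range {d : ℕ} (A : Set ℕ) (hA : A.Finite) (F : (Fin d → ℕ) → ℕ)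
    (hF : ∀ i j, i ∉ A → j ∉ A → ∀ s, F (fun k => Equiv.swap i j (s k)) = F s) :
    (Set.range F).Finite := by
  classical
  obtain ⟨n0, hn0⟩ := hA.bddAbove
  have hnA : ∀ i, n0 < i → i ∉ A := fun i hi h => absurd (hn0 h) (by omega)
  have key : ∀ (c : ℕ) (s : Fin d → ℕ),
      (Finset.univ.filter fun k => n0 + d < s k).card ≤ c →
      ∃ s' : Fin d → ℕ, (∀ k, s' k ≤ n0 + d) ∧ F s' = F s := by
    intro c
    induction c with
    | zero =>
      intro s hs
      refine ⟨s, fun k => ?_, rfl⟩
      by_contra h
      have h1 : k ∈ Finset.univ.filter fun k => n0 + d < s k :=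
        Finset.mem_filter.2 ⟨Finset.mem_univ _, by omega⟩
      rw [Nat.le_zero, Finset.card_eq_zero] at hs
      rw [hs] at h1
      exact absurd h1 (Finset.notMem_empty _)
    | succ c ih =>
      intro s hs
      by_cases hall : ∀ k, s k ≤ n0 + d
      · exact ⟨s, hall, rfl⟩
      push Not at hall
      obtain ⟨k0, hk0⟩ := hall
      -- a free value
      obtain ⟨u, hu1, hu2⟩ : ∃ u ∈ Finset.Ioc n0 (n0 + d), ∀ k, s k ≠ u := by
        by_contra hcon
        push Not at hcon
        have h1 : Finset.Ioc n0 (n0 + d) ⊆ (Finset.univ.erase k0).image s := by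
          intro u hu
          obtain ⟨k, hk⟩ := hcon u hu
          refine Finset.mem_image.2 ⟨k, Finset.mem_erase.2 ⟨?_, Finset.mem_univ _⟩, hk⟩
          rintro rfl
          rw [Finset.mem_Ioc] at hu
          omega
        have h2 := (Finset.card_le_card h1).trans Finset.card_image_le
        rw [Nat.card_Ioc, Finset.card_erase_of_mem (Finset.mem_univ _), Finset.card_univ,
          Fintype.card_fin] at h2
        have : 0 < d := k0.pos
        omega
      rw [Finset.mem_Ioc] at hu1
      obtain ⟨s', h1, h2⟩ := ih (fun k => Equiv.swap (s k0) u (s k)) (by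
        have h3 : (Finset.univ.filter fun k => n0 + d < Equiv.swap (s k0) u (s k)) ⊂
            Finset.univ.filter fun k => n0 + d < s k := by
          rw [Finset.ssubset_iff_of_subset]
          · refine ⟨k0, Finset.mem_filter.2 ⟨Finset.mem_univ _, hk0⟩, fun h => ?_⟩
            rw [Finset.mem_filter, Equiv.swap_apply_left] at h
            omega
          · intro k hk
            rw [Finset.mem_filter] at hk ⊢
            refine ⟨hk.1, ?_⟩
            by_cases h4 : s k = s k0
            · rw [h4]
              exact hk0
            · have h5 := hk.2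
              rw [Equiv.swap_apply_of_ne_of_ne h4 (hu2 k)] at h5
              exact h5
        have := Finset.card_lt_card h3
        omega)
      refine ⟨s', h1, h2.trans ?_⟩
      exact hF _ _ (hnA _ (by omega)) (hnA _ (by omega)) s
  have h1 : Set.range F ⊆ F '' (Set.pi Set.univ fun _ => Set.Iic (n0 + d)) := by
    rintro _ ⟨s, rfl⟩
    obtain ⟨s', h1, h2⟩ := key _ s le_rfl
    exact ⟨s', fun k _ => h1 k, h2⟩
  exact ((Set.Finite.pi' fun _ => Set.finite_Iic _).image F).subset (by
    intro x hx
    obtain ⟨s', hs', rfl⟩ := h1 hx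
    exact ⟨s', fun k => hs' k (Set.mem_univ _), rfl⟩)

end Pool.Agent.X225.Mc
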