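import Mathlib

/-!
# The structure with 4-cycles over pairs of pairs, and its automorphisms
-/

universe u

namespace Pool.Agent.X225.Mc

open Function

/-- frames: a set with two maps, a coloring and a relation -/
structure Fr (X : Type) where
  /-- the rotation -/
  S : X → X
  /-- the exchange -/
  W : X → X
  /-- the side -/
  a : X → ℕ
  /-- same pair and same element -/
  I : X → X → Prop

/-- names of the binary relations -/
inductive K : Type
  | nn (u v : Fin 2) : K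
  | ii (u v : Fin 2) : K
  | oo (k : Fin 4) (u : Fin 2) : K
  deriving DecidableEq, Fintype

/-- the binary relations of a frame -/
def Fr.cond {X : Type} (F : Fr X) : K → X → X → Prop
  | .nn u v, x, y => F.a (F.S^[u.1] x) = F.a (F.S^[v.1] y)
  | .ii u v, x, y => F.I (F.W^[u.1] x) (F.W^[v.1] y)
  | .oo k u, x, y => y = F.S^[k.1] (F.W^[u.1] x)

/-- maps of frames -/
structure Fr.Hom {X Y : Type} (F : Fr X) (F' : Fr Y) (h : X → Y) : Prop where
  inj : Injective h
  S : ∀ x, h (F.S x) = F'.S (h x)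
  W : ∀ x, h (F.W x) = F'.W (h x)
  a : ∀ x y, F.a x = F.a y ↔ F'.a (h x) = F'.a (h y)
  I : ∀ x y, F.I x y ↔ F'.I (h x) (h y)

theorem iter_comm {X Y : Type} {f : X → X} {g : Y → Y} {h : X → Y} (hc : ∀ x, h (f x) = g (h x))
    (n : ℕ) (x : X) : h (f^[n] x) = g^[n] (h x) := by
  induction n with
  | zero => rfl
  | succ n ih => rw [iterate_succ_apply', iterate_succ_apply', hc, ih]

theorem Fr.Hom.cond {X Y : Type} {F : Fr X} {F' : Fr Y} {h : X → Y} (hh : F.Hom F' h) (c : K)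
    (x y : X) : F.cond c x y ↔ F'.cond c (h x) (h y) := by
  cases c with
  | nn u v =>
    change F.a _ = F.a _ ↔ F'.a _ = F'.a _
    rw [hh.a, iter_comm hh.S, iter_comm hh.S]
  | ii u v =>
    change F.I _ _ ↔ F'.I _ _
    rw [hh.I, iter_comm hh.W, iter_comm hh.W]
  | oo k u =>
    change y = _ ↔ h y = _
    rw [← iter_comm hh.W, ← iter_comm hh.S, hh.inj.eq_iff]

theorem Fr.Hom.comp {X Y Z : Type} {F : Fr X} {F' : Fr Y} {F'' : Fr Z} {h : X → Y} {h' : Y → Z}
    (hh' : F'.Hom F'' h') (hh : F.Hom F' h) : F.Hom F'' (h' ∘ h) where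
  inj := hh'.inj.comp hh.inj
  S x := by simp only [comp_apply, hh.S, hh'.S]
  W x := by simp only [comp_apply, hh.W, hh'.W]
  a x y := by rw [hh.a, hh'.a]; rfl
  I x y := by rw [hh.I, hh'.I]; rfl

theorem Fr.Hom.id {X : Type} (F : Fr X) : F.Hom F (fun x => x) where
  inj := injective_id
  S _ := rfl
  W _ := rfl
  a _ _ := Iff.rfl
  I _ _ := Iff.rfl

/-! ### The domain -/

/-- points -/
@[ext]
structure Om : Type where
  a : ℕ
  b : ℕ
  m : ℕ
  n : ℕ
  z : ZMod 2
  hab : a ≠ b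
  hmn : m ≠ n

/-- the twist -/
def th (a b : ℕ) : ZMod 2 := if b < a then 1 else 0

theorem th_add {a b : ℕ} (h : a ≠ b) : th a b + th b a = 1 := by
  unfold th
  rcases lt_or_gt_of_ne h with h | h
  · rw [if_neg (by omega), if_pos h, zero_add]
  · rw [if_pos h, if_neg (by omega), add_zero]

/-- the frame of the points -/
def FO : Fr Om where
  S x := ⟨x.b, x.a, x.m, x.n, x.z + th x.a x.b, x.hab.symm, x.hmn⟩
  W x := ⟨x.a, x.b, x.n, x.m, x.z, x.hab, x.hmn.symm⟩
  a x := x.a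
  I x y := x.m = y.m ∧ ((x.a = y.a ∧ x.b = y.b) ∨ (x.a = y.b ∧ x.b = y.a))

theorem FO_S (x : Om) : FO.S x = ⟨x.b, x.a, x.m, x.n, x.z + th x.a x.b, x.hab.symm, x.hmn⟩ := rfl
theorem FO_W (x : Om) : FO.W x = ⟨x.a, x.b, x.n, x.m, x.z, x.hab, x.hmn.symm⟩ := rfl

theorem FO_SS (x : Om) : FO.S (FO.S x) = ⟨x.a, x.b, x.m, x.n, x.z + 1, x.hab, x.hmn⟩ := by
  rw [FO_S, FO_S]
  refine Om.ext rfl rfl rfl rfl ?_
  change x.z + th x.a x.b + th x.b x.a = x.z + 1
  rw [add_assoc, th_add x.hab]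

/-- data for automorphisms -/
structure Dat where
  σ : Equiv.Perm ℕ
  ρ : ℕ → ℕ → Equiv.Perm ℕ
  κ : ℕ → ℕ → ℕ → ℕ → ZMod 2
  hρ : ∀ a b, ρ a b = ρ b a
  hκW : ∀ a b m n, κ a b m n = κ a b n m
  hκS : ∀ a b m n, a ≠ b → κ b a m n + th a b = κ a b m n + th (σ a) (σ b)

/-- the map -/
def Dat.act (D : Dat) (x : Om) : Om :=
  ⟨D.σ x.a, D.σ x.b, D.ρ x.a x.b x.m, D.ρ x.a x.b x.n, x.z + D.κ x.a x.b x.m x.n,
    fun h => x.hab (D.σ.injective h), fun h => x.hmn ((D.ρ x.a x.b).injective h)⟩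

theorem Dat.hom (D : Dat) : FO.Hom FO D.act where
  inj x y h := by
    have h1 := congrArg Om.a h
    have h2 := congrArg Om.b h
    have h3 := congrArg Om.m h
    have h4 := congrArg Om.n h
    have h5 := congrArg Om.z h
    change D.σ x.a = D.σ y.a at h1
    change D.σ x.b = D.σ y.b at h2
    change D.ρ x.a x.b x.m = D.ρ y.a y.b y.m at h3
    change D.ρ x.a x.b x.n = D.ρ y.a y.b y.n at h4
    change x.z + D.κ x.a x.b x.m x.n = y.z + D.κ y.a y.b y.m y.n at h5
    have h1' := D.σ.injective h1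
    have h2' := D.σ.injective h2
    rw [h1', h2'] at h3 h4 h5
    have h3' := (D.ρ y.a y.b).injective h3
    have h4' := (D.ρ y.a y.b).injective h4
    rw [h3', h4'] at h5
    exact Om.ext h1' h2' h3' h4' (add_right_cancel h5)
  S x := by
    refine Om.ext rfl rfl ?_ ?_ ?_
    · change D.ρ x.b x.a x.m = D.ρ x.a x.b x.m
      rw [D.hρ]
    · change D.ρ x.b x.a x.n = D.ρ x.a x.b x.n
      rw [D.hρ]
    · change x.z + th x.a x.b + D.κ x.b x.a x.m x.n =
        x.z + D.κ x.a x.b x.m x.n + th (D.σ x.a) (D.σ x.b)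
      rw [add_assoc, add_assoc, ← D.hκS _ _ _ _ x.hab, add_comm (th x.a x.b)]
  W x := by
    refine Om.ext rfl rfl rfl rfl ?_
    change x.z + D.κ x.a x.b x.n x.m = x.z + D.κ x.a x.b x.m x.n
    rw [D.hκW]
  a x y := D.σ.injective.eq_iff.symm
  I x y := by
    change (x.m = y.m ∧ _) ↔ (D.ρ x.a x.b x.m = D.ρ y.a y.b y.m ∧
      ((D.σ x.a = D.σ y.a ∧ D.σ x.b = D.σ y.b) ∨ (D.σ x.a = D.σ y.b ∧ D.σ x.b = D.σ y.a)))
    rw [D.σ.injective.eq_iff, D.σ.injective.eq_iff, D.σ.injective.eq_iff, D.σ.injective.eq_iff]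
    constructor
    · rintro ⟨h1, h2⟩
      refine ⟨?_, h2⟩
      rcases h2 with ⟨h2, h3⟩ | ⟨h2, h3⟩
      · rw [h1, h2, h3]
      · rw [h1, h2, h3, D.hρ]
    · rintro ⟨h1, h2⟩
      refine ⟨?_, h2⟩
      rcases h2 with ⟨h2, h3⟩ | ⟨h2, h3⟩
      · rw [h2, h3] at h1
        exact (D.ρ _ _).injective h1
      · rw [h2, h3, D.hρ] at h1
        exact (D.ρ _ _).injective h1

theorem Dat.surj (D : Dat) : Surjective D.act := by
  intro y
  have hab : D.σ.symm y.a ≠ D.σ.symm y.b := fun h => y.hab (D.σ.symm.injective h)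
  obtain ⟨ρ, hρ⟩ : ∃ ρ, ρ = D.ρ (D.σ.symm y.a) (D.σ.symm y.b) := ⟨_, rfl⟩
  have hmn : ρ.symm y.m ≠ ρ.symm y.n := fun h => y.hmn (ρ.symm.injective h)
  refine ⟨⟨D.σ.symm y.a, D.σ.symm y.b, ρ.symm y.m, ρ.symm y.n,
    y.z - D.κ (D.σ.symm y.a) (D.σ.symm y.b) (ρ.symm y.m) (ρ.symm y.n), hab, hmn⟩, ?_⟩
  refine Om.ext ?_ ?_ ?_ ?_ ?_
  · exact D.σ.apply_symm_apply _
  · exact D.σ.apply_symm_apply _
  · change D.ρ (D.σ.symm y.a) (D.σ.symm y.b) (ρ.symm y.m) = y.m
    rw [← hρ, Equiv.apply_symm_apply]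
  · change D.ρ (D.σ.symm y.a) (D.σ.symm y.b) (ρ.symm y.n) = y.n
    rw [← hρ, Equiv.apply_symm_apply]
  · exact sub_add_cancel _ _

/-! ### Extension of permutations -/

theorem exists_perm {X : Type u} [DecidableEq X] : ∀ (n : ℕ) (f f' : Fin n → X),
    (∀ i j, f i = f j ↔ f' i = f' j) → ∃ σ : Equiv.Perm X, ∀ i, σ (f i) = f' i
  | 0, _, _, _ => ⟨1, fun i => i.elim0⟩
  | n + 1, f, f', h => by
    obtain ⟨σ, hσ⟩ := exists_perm n (fun i => f i.castSucc) (fun i => f' i.castSucc)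
      fun i j => h _ _
    refine ⟨Equiv.swap (σ (f (Fin.last n))) (f' (Fin.last n)) * σ, fun i => ?_⟩
    rw [Equiv.Perm.mul_apply]
    refine Fin.lastCases ?_ (fun i => ?_) i
    · rw [Equiv.swap_apply_left]
    · rw [hσ i]
      by_cases hi : f i.castSucc = f (Fin.last n)
      · have h1 := (h _ _).1 hi
        rw [← hi, hσ, h1, Equiv.swap_self]
        rfl
      · have h1 : f' i.castSucc ≠ f' (Fin.last n) := fun h1 => hi ((h _ _).2 h1)
        rw [Equiv.swap_apply_of_ne_of_ne _ h1]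
        rw [← hσ i]
        exact fun h2 => hi (σ.injective h2)

theorem exists_perm' {X : Type u} [DecidableEq X] {J : Type} [Finite J] (f f' : J → X)
    (h : ∀ i j, f i = f j ↔ f' i = f' j) : ∃ σ : Equiv.Perm X, ∀ i, σ (f i) = f' i := by
  obtain ⟨n, ⟨e⟩⟩ := Finite.exists_equiv_fin J
  obtain ⟨σ, hσ⟩ := exists_perm n (f ∘ e.symm) (f' ∘ e.symm) fun i j => h _ _
  refine ⟨σ, fun i => ?_⟩
  have h1 := hσ (e i)
  simpa using h1

/-! ### The extension lemma -/

/-- same type -/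
def SameT {n : ℕ} (x y : Fin n → Om) : Prop :=
  ∀ i j c, FO.cond c (x i) (x j) ↔ FO.cond c (y i) (y j)

/-- a new point can be moved -/
theorem exists_move {n : ℕ} (y : Fin n → Om) (u v : Om)
    (h1 : ∀ i c, FO.cond c (y i) u ↔ FO.cond c (y i) v)
    (h2 : ∀ i c, FO.cond c u (y i) ↔ FO.cond c v (y i)) :
    ∃ D : List Dat, (∀ i, D.foldr (fun D x => D.act x) (y i) = y i) ∧
      D.foldr (fun D x => D.act x) u = v := by
  classical
  -- step 1: the sides
  obtain ⟨σ, hσ⟩ := exists_perm' (J := (Fin n × Bool) ⊕ Bool)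
    (Sum.elim (fun p => if p.2 then (y p.1).a else (y p.1).b) fun b => if b then u.a else u.b)
    (Sum.elim (fun p => if p.2 then (y p.1).a else (y p.1).b) fun b => if b then v.a else v.b) (by
      have huv : u.a ≠ u.b ∧ v.a ≠ v.b := ⟨u.hab, v.hab⟩
      rintro (⟨i, b⟩ | b) (⟨j, b'⟩ | b')
      · exact Iff.rfl
      · cases b <;> cases b'
        · exact h1 i (.nn 1 1)
        · exact h1 i (.nn 1 0)
        · exact h1 i (.nn 0 1)
        · exact h1 i (.nn 0 0)
      · cases b <;> cases b'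
        · exact h2 j (.nn 1 1)
        · exact h2 j (.nn 1 0)
        · exact h2 j (.nn 0 1)
        · exact h2 j (.nn 0 0)
      · cases b <;> cases b' <;> simp [u.hab, v.hab, u.hab.symm, v.hab.symm])
  have hya : ∀ i, σ (y i).a = (y i).a := fun i => hσ (Sum.inl (i, true))
  have hyb : ∀ i, σ (y i).b = (y i).b := fun i => hσ (Sum.inl (i, false))
  have hua : σ u.a = v.a := hσ (Sum.inr true)
  have hub : σ u.b = v.b := hσ (Sum.inr false)
  let D1 : Dat :=
    { σ := σ
      ρ := fun _ _ => 1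
      κ := fun a b _ _ => if a < b then 0 else th (σ b) (σ a)
      hρ := fun _ _ => rfl
      hκW := fun _ _ _ _ => rfl
      hκS := by
        intro a b m n hab
        rcases lt_or_gt_of_ne hab with h | h
        · rw [if_neg (by omega), if_pos h]
          have h3 : th a b = 0 := if_neg (by omega)
          rw [h3, add_zero, zero_add]
        · rw [if_pos h, if_neg (by omega)]
          have h3 : th a b = 1 := if_pos h
          rw [h3, zero_add, th_add]
          exact fun h => hab (σ.injective h.symm) }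
  have hD1 : ∀ i, D1.act (y i) = y i := by
    intro i
    refine Om.ext (hya i) (hyb i) rfl rfl ?_
    change (y i).z + (if (y i).a < (y i).b then 0 else th (σ (y i).b) (σ (y i).a)) = (y i).z
    rw [hya, hyb]
    split_ifs with h
    · exact add_zero _
    · have h3 : th (y i).b (y i).a = 0 := if_neg h
      rw [h3, add_zero]
  obtain ⟨u', hu'⟩ : ∃ u', u' = D1.act u := ⟨_, rfl⟩
  have hu'a : u'.a = v.a := by rw [hu']; exact hua
  have hu'b : u'.b = v.b := by rw [hu']; exact hub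
  have h1' : ∀ i c, FO.cond c (y i) u' ↔ FO.cond c (y i) v := by
    intro i c
    rw [← h1, D1.hom.cond c (y i) u, hD1, hu']
  have h2' : ∀ i c, FO.cond c u' (y i) ↔ FO.cond c v (y i) := by
    intro i c
    rw [← h2, D1.hom.cond c u (y i), hD1, hu']
  -- step 2: the elements
  let P : Fin n → Prop := fun i =>
    ((y i).a = v.a ∧ (y i).b = v.b) ∨ ((y i).a = v.b ∧ (y i).b = v.a)
  obtain ⟨ρ, hρ⟩ := exists_perm' (J := ({i // P i} × Bool) ⊕ Bool)
    (Sum.elim (fun p => if p.2 then (y p.1).m else (y p.1).n) fun b => if b then u'.m else u'.n)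
    (Sum.elim (fun p => if p.2 then (y p.1).m else (y p.1).n) fun b => if b then v.m else v.n) (by
      have key : ∀ (i : {i // P i}) (s t : Fin 2),
          ((FO.W^[s.1] (y i)).m = (FO.W^[t.1] u').m ↔ (FO.W^[s.1] (y i)).m = (FO.W^[t.1] v).m) := by
        intro i s t
        have h3 := h1' i (.ii s t)
        change ((FO.W^[s.1] (y i)).m = (FO.W^[t.1] u').m ∧ _) ↔
          ((FO.W^[s.1] (y i)).m = (FO.W^[t.1] v).m ∧ _) at h3
        have hWa : ∀ (s : Fin 2) (x : Om), (FO.W^[s.1] x).a = x.a ∧ (FO.W^[s.1] x).b = x.b := by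
          intro s x
          fin_cases s <;> exact ⟨rfl, rfl⟩
        rw [(hWa s _).1, (hWa s _).2, (hWa t _).1, (hWa t _).2, (hWa t _).1, (hWa t _).2, hu'a,
          hu'b] at h3
        constructor
        · intro h4
          exact (h3.1 ⟨h4, i.2⟩).1
        · intro h4
          exact (h3.2 ⟨h4, i.2⟩).1
      rintro (⟨i, b⟩ | b) (⟨j, b'⟩ | b')
      · exact Iff.rfl
      · cases b <;> cases b'
        · exact key i 1 1
        · exact key i 1 0
        · exact key i 0 1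
        · exact key i 0 0
      · cases b <;> cases b'
        · exact eq_comm.trans ((key j 1 1).trans eq_comm)
        · exact eq_comm.trans ((key j 0 1).trans eq_comm)
        · exact eq_comm.trans ((key j 1 0).trans eq_comm)
        · exact eq_comm.trans ((key j 0 0).trans eq_comm)
      · cases b <;> cases b' <;> simp [u'.hmn, v.hmn, u'.hmn.symm, v.hmn.symm])
  let Q : ℕ → ℕ → Prop := fun a b => (a = v.a ∧ b = v.b) ∨ (a = v.b ∧ b = v.a)
  have hQ : ∀ a b, Q a b ↔ Q b a := by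
    intro a b
    constructor
    · rintro (⟨h, h'⟩ | ⟨h, h'⟩)
      · exact Or.inr ⟨h', h⟩
      · exact Or.inl ⟨h', h⟩
    · rintro (⟨h, h'⟩ | ⟨h, h'⟩)
      · exact Or.inr ⟨h', h⟩
      · exact Or.inl ⟨h', h⟩
  let D2 : Dat :=
    { σ := 1
      ρ := fun a b => if Q a b then ρ else 1
      κ := fun _ _ _ _ => 0
      hρ := fun a b => by
        by_cases h : Q a b
        · rw [if_pos h, if_pos ((hQ a b).1 h)]
        · rw [if_neg h, if_neg (fun h' => h ((hQ a b).2 h'))]
      hκW := fun _ _ _ _ => rfl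
      hκS := fun _ _ _ _ _ => rfl }
  have hD2 : ∀ i, D2.act (y i) = y i := by
    intro i
    by_cases h : P i
    · refine Om.ext rfl rfl ?_ ?_ (add_zero _)
      · change (if Q (y i).a (y i).b then ρ else 1 : Equiv.Perm ℕ) (y i).m = (y i).m
        rw [if_pos h]
        exact hρ (Sum.inl (⟨i, h⟩, true))
      · change (if Q (y i).a (y i).b then ρ else 1 : Equiv.Perm ℕ) (y i).n = (y i).n
        rw [if_pos h]
        exact hρ (Sum.inl (⟨i, h⟩, false))
    · refine Om.ext rfl rfl ?_ ?_ (add_zero _)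
      · change (if Q (y i).a (y i).b then ρ else 1 : Equiv.Perm ℕ) (y i).m = (y i).m
        rw [if_neg h]
        rfl
      · change (if Q (y i).a (y i).b then ρ else 1 : Equiv.Perm ℕ) (y i).n = (y i).n
        rw [if_neg h]
        rfl
  obtain ⟨w, hw⟩ : ∃ w, w = D2.act u' := ⟨_, rfl⟩
  have hwa : w.a = v.a := by rw [hw]; exact hu'a
  have hwb : w.b = v.b := by rw [hw]; exact hu'b
  have hQu : Q u'.a u'.b := Or.inl ⟨hu'a, hu'b⟩
  have hwm : w.m = v.m := by
    rw [hw]
    change (if Q u'.a u'.b then ρ else 1 : Equiv.Perm ℕ) u'.m = v.m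
    rw [if_pos hQu]
    exact hρ (Sum.inr true)
  have hwn : w.n = v.n := by
    rw [hw]
    change (if Q u'.a u'.b then ρ else 1 : Equiv.Perm ℕ) u'.n = v.n
    rw [if_pos hQu]
    exact hρ (Sum.inr false)
  have h1'' : ∀ i c, FO.cond c (y i) w ↔ FO.cond c (y i) v := by
    intro i c
    rw [← h1', D2.hom.cond c (y i) u', hD2, hw]
  -- step 3: the rotation
  by_cases hz : w.z = v.z
  · have hwv : w = v := Om.ext hwa hwb hwm hwn hz
    refine ⟨[D2, D1], fun i => ?_, ?_⟩
    · change D2.act (D1.act (y i)) = y i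
      rw [hD1, hD2]
    · change D2.act (D1.act u) = v
      rw [← hu', ← hw, hwv]
  have hz' : w.z + 1 = v.z := by
    have h3 : ∀ s t : ZMod 2, s ≠ t → s + 1 = t := by decide
    exact h3 _ _ hz
  let T : ℕ → ℕ → Prop := fun m n => (m = v.m ∧ n = v.n) ∨ (m = v.n ∧ n = v.m)
  have hT : ∀ a b, T a b ↔ T b a := by
    intro a b
    constructor
    · rintro (⟨h, h'⟩ | ⟨h, h'⟩)
      · exact Or.inr ⟨h', h⟩
      · exact Or.inl ⟨h', h⟩
    · rintro (⟨h, h'⟩ | ⟨h, h'⟩)
      · exact Or.inr ⟨h', h⟩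
      · exact Or.inl ⟨h', h⟩
  let D3 : Dat :=
    { σ := 1
      ρ := fun _ _ => 1
      κ := fun a b m n => if Q a b ∧ T m n then 1 else 0
      hρ := fun a b => rfl
      hκW := fun a b m n => by
        have : (Q a b ∧ T m n) ↔ (Q a b ∧ T n m) := by rw [hT]
        simp only [this]
      hκS := fun a b m n _ => by
        have : (Q a b ∧ T m n) ↔ (Q b a ∧ T m n) := by rw [hQ]
        simp only [this]
        rfl }
  have hyw : ∀ i, ¬ (Q (y i).a (y i).b ∧ T (y i).m (y i).n) := by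
    rintro i ⟨hq, ht⟩
    have h4 : ∀ (x : Om) (t : Fin 2) (k : Fin 4), w = FO.S^[k.1] (FO.W^[t.1] x) →
        v = FO.S^[k.1] (FO.W^[t.1] x) → False := by
      intro x t k h5 h6
      exact hz (congrArg Om.z (h5.trans h6.symm))
    have h5 : ∃ (t : Fin 2) (k : Fin 4), w = FO.S^[k.1] (FO.W^[t.1] (y i)) := by
      have h6 : ∃ t : Fin 2, (FO.W^[t.1] (y i)).m = w.m ∧ (FO.W^[t.1] (y i)).n = w.n := by
        rcases ht with ⟨h, h'⟩ | ⟨h, h'⟩
        · exact ⟨0, h.trans hwm.symm, h'.trans hwn.symm⟩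
        · exact ⟨1, h'.trans hwm.symm, h.trans hwn.symm⟩
      obtain ⟨t, ht1, ht2⟩ := h6
      have hta : (FO.W^[t.1] (y i)).a = (y i).a ∧ (FO.W^[t.1] (y i)).b = (y i).b := by
        fin_cases t <;> exact ⟨rfl, rfl⟩
      refine ⟨t, ?_⟩
      generalize FO.W^[t.1] (y i) = x at ht1 ht2 hta
      rw [← hta.1, ← hta.2] at hq
      have h7 : ∀ x : Om, x.a = w.a → x.b = w.b → x.m = w.m → x.n = w.n →
          w = x ∨ w = FO.S (FO.S x) := by
        intro x e1 e2 e3 e4
        by_cases e5 : x.z = w.z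
        · exact Or.inl (Om.ext e1.symm e2.symm e3.symm e4.symm e5.symm)
        · right
          rw [FO_SS]
          have e6 : ∀ s t : ZMod 2, s ≠ t → t = s + 1 := by decide
          exact Om.ext e1.symm e2.symm e3.symm e4.symm (e6 _ _ e5)
      rcases hq with ⟨h, h'⟩ | ⟨h, h'⟩
      · rcases h7 x (h.trans hwa.symm) (h'.trans hwb.symm) ht1 ht2 with h8 | h8
        · exact ⟨0, h8⟩
        · exact ⟨2, h8⟩
      · rcases h7 (FO.S x) (h'.trans hwa.symm) (h.trans hwb.symm) ht1 ht2 with h8 | h8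
        · exact ⟨1, h8⟩
        · exact ⟨3, h8⟩
    obtain ⟨t, k, h5⟩ := h5
    exact h4 _ t k h5 ((h1'' i (.oo k t)).1 h5)
  have hD3 : ∀ i, D3.act (y i) = y i := by
    intro i
    refine Om.ext rfl rfl rfl rfl ?_
    change (y i).z + (if Q (y i).a (y i).b ∧ T (y i).m (y i).n then 1 else 0) = (y i).z
    rw [if_neg (hyw i), add_zero]
  refine ⟨[D3, D2, D1], fun i => ?_, ?_⟩
  · change D3.act (D2.act (D1.act (y i))) = y i
    rw [hD1, hD2, hD3]
  · change D3.act (D2.act (D1.act u)) = v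
    rw [← hu', ← hw]
    refine Om.ext hwa hwb hwm hwn ?_
    change w.z + (if Q w.a w.b ∧ T w.m w.n then 1 else 0) = v.z
    rw [if_pos ⟨Or.inl ⟨hwa, hwb⟩, Or.inl ⟨hwm, hwn⟩⟩, hz']

theorem fold_hom (D : List Dat) : FO.Hom FO (D.foldr fun D x => D.act x) := by
  induction D with
  | nil => exact Fr.Hom.id FO
  | cons D L ih => exact D.hom.comp ih

theorem fold_surj (D : List Dat) : Surjective (fun x => D.foldr (fun D x => D.act x) x) := by
  induction D with
  | nil => exact surjective_id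
  | cons D L ih => exact D.surj.comp ih

/-- **tuples of the same type are conjugate** -/
theorem extend : ∀ (n : ℕ) (x y : Fin n → Om), SameT x y →
    ∃ g : Om → Om, FO.Hom FO g ∧ Surjective g ∧ ∀ i, g (x i) = y i
  | 0, _, _, _ => ⟨fun x => x, Fr.Hom.id FO, surjective_id, fun i => i.elim0⟩
  | n + 1, x, y, h => by
    obtain ⟨g, hg, hs, hgi⟩ := extend n (fun i => x i.castSucc) (fun i => y i.castSucc)
      fun i j c => h _ _ c
    obtain ⟨D, hD1, hD2⟩ := exists_move (fun i => y i.castSucc) (g (x (Fin.last n)))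
      (y (Fin.last n))
      (by
        intro i c
        rw [← hgi i, ← hg.cond, hgi i]
        exact h _ _ c)
      (by
        intro i c
        rw [← hgi i, ← hg.cond, hgi i]
        exact h _ _ c)
    refine ⟨fun z => D.foldr (fun (D : Dat) x => D.act x) (g z), (fold_hom D).comp hg,
      (fold_surj D).comp hs, fun i => ?_⟩
    refine Fin.lastCases ?_ (fun i => ?_) i
    · exact hD2
    · change D.foldr (fun D x => D.act x) (g (x i.castSucc)) = y i.castSucc
      rw [hgi i]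
      exact hD1 i

end Pool.Agent.X225.Mc
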